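import Mathlib

/-! Smooth frames near compact star-convex sets; cocycles are coboundaries. -/

set_option autoImplicit false

namespace Pool.Agent.Lib.MP_1c0d65_gt.Top

open Set Filter Topology Metric
open scoped ContDiff

section Chain

variable {E A : Type*} [NormedAddCommGroup E] [NormedSpace ℝ E] [NormedRing A] [NormedAlgebra ℝ A]
  {U K : Set E} {x : E} {n : WithTop ℕ∞}

/-- The point `k / N` of the segment from `x` to `z`. -/
noncomputable def spt (x : E) (N k : ℕ) (z : E) : E := x + ((k : ℝ) / N) • (z - x)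

/-- The product of the transports along the segment. -/
noncomputable def chain (T : E × E → A) (x : E) (N : ℕ) : ℕ → E → A
  | 0, _ => 1
  | k + 1, z => T (spt x N (k + 1) z, spt x N k z) * chain T x N k z

theorem spt_mem (hs : StarConvex ℝ x U) {N k : ℕ} (hk : k ≤ N) {z : E} (hz : z ∈ U) :
    spt x N k z ∈ U :=
  hs.add_smul_sub_mem hz (by positivity) (div_le_one_of_le₀ (by exact_mod_cast hk) (by positivity))

theorem contDiff_spt (x : E) (N k : ℕ) : ContDiff ℝ n (spt x N k) :=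
  contDiff_const.add ((contDiff_id.sub contDiff_const).const_smul _)

/-- FRAME, abstract form. `T (z, z')` is a smooth family with `T (z, z) = 1`. Then there is a smooth
`u`, invertible near `K`, that intertwines `s x` and `s z` whenever `T` intertwines the `s z`. -/
theorem exists_frame [CompleteSpace A] (hU : IsOpen U) (hs : StarConvex ℝ x U) (hK : IsCompact K)
    (hKU : K ⊆ U) {T : E × E → A} (hT : ContDiffOn ℝ n T (U ×ˢ U))
    (h1 : ∀ z ∈ U, T (z, z) = 1) :
    ∃ (u : E → A) (V : Set E), IsOpen V ∧ K ⊆ V ∧ V ⊆ U ∧ ContDiffOn ℝ n u U ∧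
      (∀ z ∈ V, IsUnit (u z)) ∧ ∀ s : E → A,
        (∀ z ∈ U, ∀ z' ∈ U, s z * T (z, z') = T (z, z') * s z') → ∀ z ∈ U, s z * u z = u z * s x := by
  have hO : IsOpen ((U ×ˢ U) ∩ T ⁻¹' ball 1 1) :=
    hT.continuousOn.isOpen_inter_preimage (hU.prod hU) isOpen_ball
  have hc : IsCompact ((fun p : ℝ × E => (x + p.1 • (p.2 - x), x + p.1 • (p.2 - x))) ''
      (Icc 0 1 ×ˢ K)) := (isCompact_Icc.prod hK).image (by fun_prop)
  obtain ⟨δ, hδ, hth⟩ := hc.exists_thickening_subset_open hO (by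
    rintro _ ⟨⟨t, z⟩, ⟨ht, hz⟩, rfl⟩
    have := hs.add_smul_sub_mem (hKU hz) ht.1 ht.2
    exact ⟨⟨this, this⟩, by simp only [mem_preimage, h1 _ this, mem_ball_self one_pos]⟩)
  obtain ⟨R, hR⟩ := hK.isBounded.subset_closedBall x
  obtain ⟨N, hN⟩ := exists_nat_gt (|R| / δ)
  have hN0 : (0 : ℝ) < N := lt_of_le_of_lt (by positivity) hN
  have hpair : ∀ k, Continuous fun z => (spt x N (k + 1) z, spt x N k z) := fun k =>
    (contDiff_spt (n := 0) x N _).continuous.prodMk (contDiff_spt (n := 0) x N _).continuous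
  refine ⟨chain T x N N, U ∩ ⋂ k ∈ Finset.range N, (fun z => (spt x N (k + 1) z, spt x N k z)) ⁻¹'
    ((U ×ˢ U) ∩ T ⁻¹' ball 1 1), hU.inter (isOpen_biInter_finset fun k _ => hO.preimage (hpair k)),
    fun z hz => ⟨hKU hz, mem_iInter₂.2 fun k hk => hth ?_⟩, inter_subset_left, ?_, ?_, ?_⟩
  · have hk' : (k : ℝ) ≤ N := by exact_mod_cast (Finset.mem_range.1 hk).le
    refine mem_thickening_iff.2 ⟨_, ⟨((k : ℝ) / N, z), ⟨⟨by positivity,
      div_le_one_of_le₀ hk' hN0.le⟩, hz⟩, rfl⟩, ?_⟩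
    have e : spt x N (k + 1) z - (x + ((k : ℝ) / N) • (z - x)) = (1 / N : ℝ) • (z - x) := by
      simp only [spt]; push_cast; rw [add_div, add_smul]; abel
    rw [Prod.dist_eq, max_lt_iff]
    refine ⟨?_, by simpa [spt] using hδ⟩
    rw [dist_eq_norm, e, norm_smul, Real.norm_of_nonneg (by positivity), one_div,
      inv_mul_lt_iff₀ hN0]
    have := mem_closedBall_iff_norm.1 (hR hz)
    rw [div_lt_iff₀ hδ] at hN
    linarith [le_abs_self R]
  · have : ∀ k ≤ N, ContDiffOn ℝ n (chain T x N k) U := by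
      intro k
      induction k with
      | zero => exact fun _ => contDiffOn_const
      | succ k ih =>
        intro hk
        exact (hT.comp ((contDiff_spt x N _).prodMk (contDiff_spt x N _)).contDiffOn
          fun z hz => ⟨spt_mem hs hk hz, spt_mem hs (by omega) hz⟩).mul (ih (by omega))
    exact this N le_rfl
  · intro z hz
    have : ∀ k ≤ N, IsUnit (chain T x N k z) := by
      intro k
      induction k with
      | zero => exact fun _ => isUnit_one
      | succ k ih =>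
        intro hk
        refine IsUnit.mul ?_ (ih (by omega))
        have h := (mem_iInter₂.1 hz.2 k (Finset.mem_range.2 hk)).2
        rw [mem_preimage, mem_ball_iff_norm'] at h
        simpa using isUnit_one_sub_of_norm_lt_one h
    exact this N le_rfl
  · intro s h z hz
    have : ∀ k ≤ N, s (spt x N k z) * chain T x N k z = chain T x N k z * s x := by
      intro k
      induction k with
      | zero => intro _; simp [chain, spt]
      | succ k ih =>
        intro hk
        simp only [chain]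
        rw [← mul_assoc, h _ (spt_mem hs hk hz) _ (spt_mem hs (by omega) hz), mul_assoc,
          ih (by omega), mul_assoc]
    simpa [spt, div_self hN0.ne'] using this N le_rfl

/-- A smooth family of idempotents is conjugate to a constant near `K`. -/
theorem exists_frame_idem [CompleteSpace A] (hU : IsOpen U) (hs : StarConvex ℝ x U)
    (hK : IsCompact K) (hKU : K ⊆ U) {p : E → A} (hp : ContDiffOn ℝ n p U)
    (hi : ∀ z ∈ U, p z * p z = p z) :
    ∃ (u : E → A) (V : Set E), IsOpen V ∧ K ⊆ V ∧ V ⊆ U ∧ ContDiffOn ℝ n u U ∧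
      (∀ z ∈ V, IsUnit (u z)) ∧ ∀ z ∈ U, p z * u z = u z * p x := by
  have a : ContDiffOn ℝ n (fun q : E × E => p q.1) (U ×ˢ U) :=
    hp.comp contDiffOn_fst fun _ h => h.1
  have b : ContDiffOn ℝ n (fun q : E × E => p q.2) (U ×ˢ U) :=
    hp.comp contDiffOn_snd fun _ h => h.2
  obtain ⟨u, V, h1, h2, h3, h4, h5, h6⟩ := exists_frame hU hs hK hKU
    (T := fun q => p q.1 * p q.2 + (1 - p q.1) * (1 - p q.2))
    ((a.mul b).add ((contDiffOn_const.sub a).mul (contDiffOn_const.sub b))) (fun z hz => by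
      simp only [mul_sub, sub_mul, hi z hz, one_mul, mul_one]; abel)
  refine ⟨u, V, h1, h2, h3, h4, h5, h6 p fun z hz z' hz' => ?_⟩
  simp only [mul_add, add_mul, mul_sub, sub_mul, one_mul, mul_one, ← mul_assoc, hi z hz]
  simp only [mul_assoc, hi z' hz']
  abel

/-- The same for an idempotent `p` with a complex structure `J` on its range. -/
theorem exists_frame_cx [CompleteSpace A] (hU : IsOpen U) (hs : StarConvex ℝ x U)
    (hK : IsCompact K) (hKU : K ⊆ U) {p J : E → A} (hp : ContDiffOn ℝ n p U)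
    (hJ : ContDiffOn ℝ n J U) (hi : ∀ z ∈ U, p z * p z = p z) (hl : ∀ z ∈ U, p z * J z = J z)
    (hr : ∀ z ∈ U, J z * p z = J z) (hq : ∀ z ∈ U, J z * J z = -p z) :
    ∃ (u : E → A) (V : Set E), IsOpen V ∧ K ⊆ V ∧ V ⊆ U ∧ ContDiffOn ℝ n u U ∧
      (∀ z ∈ V, IsUnit (u z)) ∧ ∀ z ∈ U, p z * u z = u z * p x ∧ J z * u z = u z * J x := by
  have a : ∀ {f : E → A}, ContDiffOn ℝ n f U → ContDiffOn ℝ n (fun q : E × E => f q.1) (U ×ˢ U) :=
    fun hf => hf.comp contDiffOn_fst fun _ h => h.1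
  have b : ∀ {f : E → A}, ContDiffOn ℝ n f U → ContDiffOn ℝ n (fun q : E × E => f q.2) (U ×ˢ U) :=
    fun hf => hf.comp contDiffOn_snd fun _ h => h.2
  obtain ⟨u, V, h1, h2, h3, h4, h5, h6⟩ := exists_frame hU hs hK hKU
    (T := fun q => (1 / 2 : ℝ) • (p q.1 * p q.2 - J q.1 * J q.2) + (1 - p q.1) * (1 - p q.2))
    (((((a hp).mul (b hp)).sub ((a hJ).mul (b hJ))).const_smul _).add
      ((contDiffOn_const.sub (a hp)).mul (contDiffOn_const.sub (b hp)))) (fun z hz => by
      simp only [mul_sub, sub_mul, hi z hz, hq z hz, one_mul, mul_one]; module)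
  refine ⟨u, V, h1, h2, h3, h4, h5, fun z hz => ⟨h6 p (fun z hz z' hz' => ?_) z hz,
    h6 J (fun z hz z' hz' => ?_) z hz⟩⟩
  · simp only [mul_add, add_mul, mul_sub, sub_mul, one_mul, mul_one, ← mul_assoc, hi z hz, hl z hz,
      mul_smul_comm, smul_mul_assoc]
    simp only [mul_assoc, hi z' hz', hr z' hz']
    module
  · simp only [mul_add, add_mul, mul_sub, sub_mul, one_mul, mul_one, ← mul_assoc, hq z hz, hr z hz,
      mul_smul_comm, smul_mul_assoc]
    simp only [mul_assoc, hq z' hz', hl z' hz', neg_mul, mul_neg]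
    module

end Chain

section Cocycle

variable {E : Type*} [NormedAddCommGroup E] [NormedSpace ℝ E]

/-- A function that is smooth on `W ∩ U`, cut off inside `U`, is smooth on `W`. -/
theorem contDiffOn_cut {F : Type*} [NormedAddCommGroup F] [NormedSpace ℝ F] {n : WithTop ℕ∞}
    {W U : Set E} (hW : IsOpen W) (hU : IsOpen U) {ρ : E → ℝ} (hρ : ContDiff ℝ n ρ)
    (hs : tsupport ρ ⊆ U) {f : E → F} (hf : ContDiffOn ℝ n f (W ∩ U)) :
    ContDiffOn ℝ n (fun z => ρ z • f z) W := by
  intro z hz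
  by_cases h : z ∈ tsupport ρ
  · exact (hρ.contDiffAt.smul
      (hf.contDiffAt ((hW.inter hU).mem_nhds ⟨hz, hs h⟩))).contDiffWithinAt
  · refine ((contDiffAt_const (c := (0 : F))).congr_of_eventuallyEq ?_).contDiffWithinAt
    filter_upwards [notMem_tsupport_iff_eventuallyEq.1 h] with y hy
    rw [hy, Pi.zero_apply, zero_smul]

/-- A smooth cocycle with values in the nonzero complex numbers on an open cover of a compact
convex set is a coboundary near that set. -/
theorem exists_section [FiniteDimensional ℝ E] {n : ℕ∞} {ι : Type*} {U : ι → Set E}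
    (hU : ∀ i, IsOpen (U i)) {g : ι → ι → E → ℂ} (hg : ∀ i j, ContDiffOn ℝ n (g i j) (U i ∩ U j))
    (h1 : ∀ i, ∀ z ∈ U i, g i i z = 1)
    (hc : ∀ i j k, ∀ z ∈ U i, z ∈ U j → z ∈ U k → g i j z * g j k z = g i k z)
    {K : Set E} (hK : IsCompact K) (hK' : Convex ℝ K) (cov : K ⊆ ⋃ i, U i) :
    ∃ (V : Set E) (s : ι → E → ℂ), IsOpen V ∧ K ⊆ V ∧ (∀ i, ContDiffOn ℝ n (s i) (V ∩ U i)) ∧
      (∀ i, ∀ z ∈ V, z ∈ U i → s i z ≠ 0) ∧
      ∀ i j, ∀ z ∈ U i, z ∈ U j → s i z = g i j z * s j z := by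
  classical
  rcases K.eq_empty_or_nonempty with rfl | ⟨x, hx⟩
  · exact ⟨∅, 0, isOpen_empty, Subset.rfl, fun _ => contDiffOn_const, fun _ _ h => h.elim,
      fun _ _ _ _ _ => by simp⟩
  have hb : ∀ y : K, ∃ (i : ι) (ρ : E → ℝ), tsupport ρ ⊆ U i ∧ ContDiff ℝ n ρ ∧ ρ y = 1 := by
    intro y
    obtain ⟨i, hi⟩ := mem_iUnion.1 (cov y.2)
    obtain ⟨ρ, a, -, b, -, c⟩ := exists_contDiff_tsupport_subset (n := n) ((hU i).mem_nhds hi)
    exact ⟨i, ρ, a, b, c⟩
  choose I ρ hs hρ h1' using hb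
  have ho : ∀ y, IsOpen (Function.support (ρ y)) := fun y => (hρ y).continuous.isOpen_support
  obtain ⟨t, ht⟩ := hK.elim_finite_subcover (fun y : K => Function.support (ρ y)) ho
    fun y hy => mem_iUnion.2 ⟨⟨y, hy⟩, by simp [h1' ⟨y, hy⟩]⟩
  obtain ⟨δ, hδ, hth⟩ := hK.exists_thickening_subset_open (isOpen_biUnion fun y _ => ho y) ht
  have mem : ∀ {a z}, ρ a z ≠ 0 → z ∈ U (I a) := fun h => hs _ (subset_tsupport _ h)
  let σ : E → ℝ := fun z => ∑ a : t, ρ a z ^ 2
  have hσ : ∀ z ∈ thickening δ K, σ z ≠ 0 := by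
    intro z hz
    obtain ⟨a, ha, h⟩ := mem_iUnion₂.1 (hth hz)
    refine ne_of_gt (Finset.sum_pos' (fun _ _ => sq_nonneg _) ?_)
    exact ⟨⟨a, ha⟩, Finset.mem_univ _, sq_pos_of_ne_zero h⟩
  let w : ι → t → E → ℂ := fun k b z => ρ b z • g k (I b) z
  have hw : ∀ k b, ContDiffOn ℝ n (w k b) (U k) := fun k b =>
    contDiffOn_cut (hU k) (hU _) (hρ b) (hs b) (hg _ _)
  have hw' : ∀ k l b, ∀ z ∈ U k, z ∈ U l → w k b z = g k l z * w l b z := by
    intro k l b z hk hl
    by_cases h : ρ b z = 0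
    · simp [w, h]
    · simp only [w, ← hc k l _ z hk hl (mem h), mul_smul_comm]
  let c : t → t → E → ℂ := fun a b z => (σ z)⁻¹ • ρ a z • w (I a) b z
  have hcs : ∀ a b, ContDiffOn ℝ n (c a b) (thickening δ K) := fun a b =>
    ((ContDiff.sum fun a _ => (hρ _).pow 2).contDiffOn.inv hσ).smul
      (contDiffOn_cut isOpen_thickening (hU _) (hρ a) (hs a) ((hw _ b).mono inter_subset_right))
  have key : ∀ a b d z, c a b z * c b d z = ((σ z)⁻¹ * ρ b z ^ 2) • c a d z := by
    intro a b d z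
    by_cases ha : ρ a z = 0
    · simp [c, ha]
    by_cases hb : ρ b z = 0
    · simp [c, hb]
    simp only [c, hw' (I a) (I b) d z (mem ha) (mem hb)]
    simp only [w, Complex.real_smul]
    push_cast
    ring
  let p : E → (t → ℂ) →L[ℂ] t → ℂ := fun z => ∑ a, ∑ b, c a b z •
    (ContinuousLinearMap.single ℂ (fun _ => ℂ) a).comp (ContinuousLinearMap.proj b)
  have hp : ∀ z v a, p z v a = ∑ b, c a b z * v b := by
    intro z v a
    simp [p, sum_apply, Finset.sum_apply, Pi.single_apply, Finset.sum_ite_irrel]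
  have hi : ∀ z ∈ thickening δ K, p z * p z = p z := by
    intro z hz
    ext1 v
    funext a
    simp only [mul_apply_eq_comp, hp, Finset.mul_sum, ← mul_assoc, key]
    rw [Finset.sum_comm]
    refine Finset.sum_congr rfl fun d _ => ?_
    rw [← Finset.sum_mul, ← Finset.sum_smul, ← Finset.mul_sum, inv_mul_cancel₀ (hσ z hz), one_smul]
  have hx' := self_subset_thickening hδ K hx
  obtain ⟨u, V, v1, v2, v3, v4, v5, v6⟩ := exists_frame_idem (n := n) isOpen_thickening
    ((hK'.thickening δ).starConvex hx') hK (self_subset_thickening hδ K) (p := p)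
    (ContDiffOn.sum fun a _ => ContDiffOn.sum fun b _ => (hcs a b).smul_const _) hi
  obtain ⟨a₀, ha₀, h₀⟩ := mem_iUnion₂.1 (ht hx)
  let e : t → ℂ := p x (Pi.single ⟨a₀, ha₀⟩ 1)
  have he : e ≠ 0 := fun h => by
    have := congrFun h ⟨a₀, ha₀⟩
    simp only [e, hp, Pi.single_apply, mul_ite, mul_one, mul_zero, Finset.sum_ite_eq',
      Finset.mem_univ, if_true, c, w, h1 _ _ (mem h₀), Pi.zero_apply, smul_eq_zero, inv_eq_zero,
      hσ x hx', one_ne_zero, or_false, false_or, or_self] at this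
    exact h₀ this
  have rel : ∀ i j, ∀ z ∈ U i, z ∈ U j →
      ∑ b, w i b z * u z e b = g i j z * ∑ b, w j b z * u z e b := fun i j z hi hj => by
    simp only [Finset.mul_sum, hw' i j _ z hi hj, mul_assoc]
  refine ⟨V, fun k z => ∑ b, w k b z * u z e b, v1, v2, fun k => ContDiffOn.sum fun b _ =>
    ((hw k b).mono inter_subset_right).mul ?_, fun k z hz hk h => he ?_, rel⟩
  · exact (((ContinuousLinearMap.proj b : (t → ℂ) →L[ℂ] ℂ).comp
      (ContinuousLinearMap.apply ℂ (t → ℂ) e)).restrictScalars ℝ).contDiff.comp_contDiffOn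
        (v4.mono fun _ h => v3 h.1)
  · have fix : p z (u z e) = u z e := by
      rw [← mul_apply_eq_comp, v6 z (v3 hz), mul_apply_eq_comp,
        ← mul_apply_eq_comp (p x), hi x hx']
    have h0 : u z e = 0 := by
      funext a
      rw [← fix, hp]
      by_cases ha : ρ a z = 0
      · simp [c, ha]
      · simp only [c, smul_mul_assoc, ← Finset.smul_sum, rel _ k z (mem ha) hk, h, mul_zero,
          smul_zero, Pi.zero_apply]
    obtain ⟨U', hU'⟩ := v5 z hz
    have := congrArg (fun f : (t → ℂ) →L[ℂ] t → ℂ => f e) U'.inv_mul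
    simpa only [mul_apply_eq_comp, hU', h0, map_zero, one_apply_eq_self,
      eq_comm] using this

end Cocycle

end Pool.Agent.Lib.MP_1c0d65_gt.Top
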