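import Mathlib

/-! Continuous and smooth logarithms of nowhere vanishing functions. -/

set_option autoImplicit false

namespace Pool.Agent.Lib.MP_1c0d65_gt.Top

open Set Complex Filter Topology

section Gen

variable {X : Type*} [TopologicalSpace X] {U V : Set X} {f f' g : X → ℂ}

/-- The function `g` has a continuous logarithm on `U`. -/
def HasLog (g : X → ℂ) (U : Set X) : Prop := ∃ f, ContinuousOn f U ∧ ∀ x ∈ U, exp (f x) = g x

theorem HasLog.mono (h : HasLog g U) (hV : V ⊆ U) : HasLog g V :=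
  h.imp fun _ hf => ⟨hf.1.mono hV, fun x hx => hf.2 x (hV hx)⟩

theorem HasLog.congr {g' : X → ℂ} (h : HasLog g U) (e : ∀ x ∈ U, g' x = g x) : HasLog g' U :=
  h.imp fun _ hf => ⟨hf.1, fun x hx => (hf.2 x hx).trans (e x hx).symm⟩

theorem HasLog.mul {g' : X → ℂ} (h : HasLog g U) (h' : HasLog g' U) :
    HasLog (fun x => g x * g' x) U := by
  obtain ⟨f, hf, e⟩ := h
  obtain ⟨f', hf', e'⟩ := h'
  exact ⟨_, hf.add hf', fun x hx => by rw [Pi.add_apply, Complex.exp_add, e x hx, e' x hx]⟩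

theorem HasLog.inv (h : HasLog g U) : HasLog (fun x => (g x)⁻¹) U := by
  obtain ⟨f, hf, e⟩ := h
  exact ⟨_, hf.neg, fun x hx => by rw [Pi.neg_apply, Complex.exp_neg, e x hx]⟩

theorem HasLog.comp {Y : Type*} [TopologicalSpace Y] {W : Set Y} {φ : Y → X} (h : HasLog g U)
    (hφ : ContinuousOn φ W) (hm : MapsTo φ W U) : HasLog (fun y => g (φ y)) W := by
  obtain ⟨f, hf, e⟩ := h
  exact ⟨_, hf.comp hφ hm, fun x hx => e _ (hm hx)⟩

theorem hasLog_empty (g : X → ℂ) : HasLog g ∅ := ⟨0, continuousOn_empty _, fun _ h => h.elim⟩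

theorem hasLog_of_slitPlane (hg : ContinuousOn g U) (h : ∀ x ∈ U, g x ∈ slitPlane) : HasLog g U :=
  ⟨fun x => log (g x), hg.clog h, fun x hx => Complex.exp_log (slitPlane_ne_zero (h x hx))⟩

/-- Two logarithms that agree at one point of a connected set agree on it. -/
theorem eqOn_of_exp_eq (hU : IsPreconnected U) (hf : ContinuousOn f U) (hf' : ContinuousOn f' U)
    (h : ∀ x ∈ U, exp (f x) = exp (f' x)) {a : X} (ha : a ∈ U) (e : f a = f' a) : EqOn f f' U :=
  Complex.isCoveringMap_exp.eqOn_of_comp_eqOn hU hf hf' (fun x hx => Subtype.ext (h x hx)) ha e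

/-- Two logarithms on a connected set differ by a constant in `2 π i ℤ`. -/
theorem exists_int_of_exp_eq (hU : IsPreconnected U) (hf : ContinuousOn f U)
    (hf' : ContinuousOn f' U) (h : ∀ x ∈ U, exp (f x) = exp (f' x)) :
    ∃ n : ℤ, ∀ x ∈ U, f x = f' x + n * (2 * Real.pi * I) := by
  rcases U.eq_empty_or_nonempty with rfl | ⟨a, ha⟩
  · exact ⟨0, fun _ h => h.elim⟩
  obtain ⟨n, hn⟩ := Complex.exp_eq_exp_iff_exists_int.1 (h a ha)
  exact ⟨n, eqOn_of_exp_eq hU hf (hf'.add continuousOn_const) (fun x hx => by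
    rw [h x hx, Complex.exp_add, Complex.exp_int_mul_two_pi_mul_I, mul_one]) ha hn⟩

/-- Gluing of logarithms on two open sets with connected intersection. -/
theorem HasLog.union (hU : IsOpen U) (hV : IsOpen V) (hc : IsPreconnected (U ∩ V))
    (h : HasLog g U) (h' : HasLog g V) : HasLog g (U ∪ V) := by
  classical
  obtain ⟨f, hf, e⟩ := h
  obtain ⟨f', hf', e'⟩ := h'
  obtain ⟨n, hn⟩ := exists_int_of_exp_eq hc (hf.mono inter_subset_left)
    (hf'.mono inter_subset_right) fun x hx => (e x hx.1).trans (e' x hx.2).symm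
  refine ⟨fun x => if x ∈ U then f x else f' x + n * (2 * Real.pi * I), ?_, fun x hx => ?_⟩
  · refine ContinuousOn.union_of_isOpen (hf.congr fun x hx => if_pos hx)
      ((hf'.add (continuousOn_const (c := n * (2 * Real.pi * I)))).congr fun x hx => ?_) hU hV
    by_cases hx' : x ∈ U
    · exact (if_pos hx').trans (hn x ⟨hx', hx⟩)
    · exact if_neg hx'
  · by_cases hx' : x ∈ U
    · simp only [if_pos hx', e x hx']
    · simp only [if_neg hx', Complex.exp_add, Complex.exp_int_mul_two_pi_mul_I, mul_one,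
        e' x (hx.resolve_left hx')]

theorem hasLog_of_isSimplyConnected [LocallyPathConnectedSpace X] (hc : IsSimplyConnected U)
    (hU : IsOpen U) (hg : ContinuousOn g U) (h0 : ∀ x ∈ U, g x ≠ 0) : HasLog g U :=
  Complex.exists_continuousOn_eqOn_exp_comp hc hU hg fun ⟨x, hx, e⟩ => h0 x hx e

/-- Near a point, a continuous logarithm is given by the principal branch. -/
theorem eventually_eq_log {a : X} (hf : ContinuousWithinAt f U a) (ha : a ∈ U)
    (e : ∀ x ∈ U, exp (f x) = g x) : ∀ᶠ x in 𝓝[U] a, f x = f a + log (g x / g a) := by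
  have h : Tendsto (fun x => (f x - f a).im) (𝓝[U] a) (𝓝 0) := by
    have := (Complex.continuous_im.tendsto _).comp (hf.tendsto.sub_const (f a))
    rwa [sub_self] at this
  filter_upwards [h.eventually (Ioo_mem_nhds (neg_lt_zero.2 Real.pi_pos) Real.pi_pos),
    self_mem_nhdsWithin] with x hx hxU
  rw [← e x hxU, ← e a ha, ← Complex.exp_sub, Complex.log_exp hx.1 hx.2.le, add_sub_cancel]

end Gen

section Smooth

variable {𝕜 : Type*} [NontriviallyNormedField 𝕜] [NormedAlgebra 𝕜 ℂ] {E : Type*}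
  [NormedAddCommGroup E] [NormedSpace 𝕜 E] {U : Set E} {f g : E → ℂ} {k : WithTop ℕ∞}

/-- A continuous logarithm of a `C^k` function is `C^k`. -/
theorem contDiffOn_of_exp_eq (hf : ContinuousOn f U) (e : ∀ x ∈ U, exp (f x) = g x)
    (hg : ContDiffOn 𝕜 k g U) : ContDiffOn 𝕜 k f U := fun a ha => by
  have h0 : g a ≠ 0 := e a ha ▸ Complex.exp_ne_zero _
  have h1 : ContDiffAt 𝕜 k log (g a / g a) :=
    (Complex.contDiffAt_log (by rw [div_self h0]; exact one_mem_slitPlane)).restrict_scalars 𝕜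
  have h2 : ContDiffWithinAt 𝕜 k (fun x => f a + log (g x / g a)) U a :=
    contDiffWithinAt_const.add (ContDiffAt.comp_contDiffWithinAt (f := fun x => g x / g a) a h1
      ((hg a ha).div_const (g a)))
  exact h2.congr_of_eventuallyEq (eventually_eq_log (hf a ha) ha e) (by simp [div_self h0])

theorem differentiableOn_of_exp_eq (hf : ContinuousOn f U) (e : ∀ x ∈ U, exp (f x) = g x)
    (hg : DifferentiableOn 𝕜 g U) : DifferentiableOn 𝕜 f U := fun a ha => by
  have h0 : g a ≠ 0 := e a ha ▸ Complex.exp_ne_zero _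
  have h1 : ContDiffAt 𝕜 1 log (g a / g a) :=
    (Complex.contDiffAt_log (by rw [div_self h0]; exact one_mem_slitPlane)).restrict_scalars 𝕜
  have h2 : DifferentiableWithinAt 𝕜 (fun x => f a + log (g x / g a)) U a :=
    (DifferentiableAt.comp_differentiableWithinAt (f := fun x => g x / g a) a
      (h1.differentiableAt one_ne_zero) (by
        simp only [div_eq_mul_inv]; exact (hg a ha).mul_const _)).const_add (f a)
  exact h2.congr_of_eventuallyEq (eventually_eq_log (hf a ha) ha e) (by simp [div_self h0])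

theorem HasLog.contDiffOn (h : HasLog g U) (hg : ContDiffOn 𝕜 k g U) :
    ∃ f, ContDiffOn 𝕜 k f U ∧ ∀ x ∈ U, exp (f x) = g x :=
  h.imp fun _ hf => ⟨contDiffOn_of_exp_eq hf.1 hf.2 hg, hf.2⟩

theorem HasLog.differentiableOn (h : HasLog g U) (hg : DifferentiableOn 𝕜 g U) :
    ∃ f, DifferentiableOn 𝕜 f U ∧ ∀ x ∈ U, exp (f x) = g x :=
  h.imp fun _ hf => ⟨differentiableOn_of_exp_eq hf.1 hf.2 hg, hf.2⟩

end Smooth

section Convex

variable {E : Type*} [NormedAddCommGroup E] [NormedSpace ℝ E] {U : Set E} {g : E → ℂ}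

theorem hasLog_of_starConvex {c : E} (hc : StarConvex ℝ c U) (hU : IsOpen U)
    (hg : ContinuousOn g U) (h0 : ∀ x ∈ U, g x ≠ 0) : HasLog g U := by
  rcases U.eq_empty_or_nonempty with rfl | hne
  · exact hasLog_empty g
  have := hc.contractibleSpace hne
  exact hasLog_of_isSimplyConnected (SimplyConnectedSpace.ofContractible U) hU hg h0

theorem hasLog_of_convex (hc : Convex ℝ U) (hU : IsOpen U) (hg : ContinuousOn g U)
    (h0 : ∀ x ∈ U, g x ≠ 0) : HasLog g U := by
  rcases U.eq_empty_or_nonempty with rfl | ⟨c, h⟩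
  · exact hasLog_empty g
  exact hasLog_of_starConvex (hc.starConvex h) hU hg h0

/-- An open convex neighbourhood of the origin minus a subspace of codimension at least two is
connected. -/
theorem isPreconnected_diff_submodule (hc : Convex ℝ U) (hU : IsOpen U) (h0 : (0 : E) ∈ U)
    (L : Submodule ℝ E) (hL : 1 < Module.rank ℝ (E ⧸ L)) : IsPreconnected (U \ L) := by
  have seg : ∀ x ∈ U \ L, ∀ δ : ℝ, 0 < δ → δ ≤ 1 → JoinedIn (U \ L) x (δ • x) := by
    intro x hx δ hδ hδ1
    refine JoinedIn.of_segment_subset ?_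
    rintro _ ⟨a, b, ha, hb, hab, rfl⟩
    have h1 : 0 < a + b * δ := by nlinarith
    rw [smul_smul, ← add_smul]
    exact ⟨hc.smul_mem_of_zero_mem h0 hx.1 ⟨h1.le, by nlinarith⟩,
      fun h => hx.2 ((L.smul_mem_iff h1.ne').1 h)⟩
  refine isPreconnected_of_forall_pair fun x hx y hy => ?_
  obtain ⟨γ, hγ⟩ := (isPathConnected_compl_of_one_lt_codim hL).joinedIn x hx.2 y hy.2
  obtain ⟨r, hr, hrU⟩ := Metric.isOpen_iff.1 hU 0 h0
  obtain ⟨M, hM0, hM⟩ := (isCompact_range γ.continuous).isBounded.exists_pos_norm_lt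
  have hδ : 0 < min 1 (r / M) := lt_min one_pos (div_pos hr hM0)
  have hj : JoinedIn (U \ L) (min 1 (r / M) • x) (min 1 (r / M) • y) :=
    ⟨γ.map (continuous_const_smul _), fun t => ⟨hrU (by
      have h1 := hM _ ⟨t, rfl⟩
      have h2 := (le_div_iff₀ hM0).1 (min_le_right 1 (r / M))
      rw [mem_ball_zero_iff, Path.map_coe, Function.comp, norm_smul, Real.norm_of_nonneg hδ.le]
      nlinarith), fun h => hγ t ((L.smul_mem_iff hδ.ne').1 h)⟩⟩
  obtain ⟨p, hp⟩ := ((seg x hx _ hδ (min_le_left _ _)).trans hj).trans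
    (seg y hy _ hδ (min_le_left _ _)).symm
  exact ⟨range p, range_subset_iff.2 hp, p.source_mem_range, p.target_mem_range,
    isPreconnected_range p.continuous⟩

theorem starConvex_diff_ray (hc : Convex ℝ U) {e : E} (he : e ≠ 0) (hm : -e ∈ U) :
    StarConvex ℝ (-e) (U \ (fun t : ℝ => t • e) '' Ici 0) := by
  rintro x hx a b ha hb hab
  refine ⟨hc hm hx.1 ha hb hab, ?_⟩
  rintro ⟨t, ht, e1⟩
  rcases hb.eq_or_lt with rfl | hb
  · rw [add_zero] at hab
    have : (t + 1) • e = 0 := by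
      rw [add_smul, one_smul, show t • e = a • -e + (0 : ℝ) • x from e1, hab]; simp
    exact he ((smul_eq_zero.1 this).resolve_left (by have : 0 ≤ t := ht; positivity))
  · refine hx.2 ⟨(t + a) / b, div_nonneg (add_nonneg ht ha) hb.le, ?_⟩
    have : b • x = (t + a) • e := by
      rw [add_smul, show t • e = a • -e + b • x from e1, smul_neg]; abel
    change ((t + a) / b) • e = x
    rw [div_eq_inv_mul, mul_smul, ← this, inv_smul_smul₀ hb.ne']

theorem hasLog_punctured_zero (hE : 2 < Module.rank ℝ E) (hc : Convex ℝ U) (hU : IsOpen U)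
    (h0 : (0 : E) ∈ U) (hg : ContinuousOn g (U \ {0})) (hz : ∀ x ∈ U \ {0}, g x ≠ 0) :
    HasLog g (U \ {0}) := by
  have : Nontrivial E := rank_pos_iff_nontrivial.1 (two_pos.trans hE)
  obtain ⟨e, he, he1, he2⟩ : ∃ e : E, e ≠ 0 ∧ e ∈ U ∧ -e ∈ U := by
    obtain ⟨r, hr, hrU⟩ := Metric.isOpen_iff.1 hU 0 h0
    obtain ⟨e, he⟩ := exists_norm_eq E (half_pos hr).le
    exact ⟨e, norm_pos_iff.1 (he ▸ half_pos hr), hrU (by simp [he, hr]), hrU (by simp [he, hr])⟩
  have cl : ∀ v : E, v ≠ 0 → IsClosed ((fun t : ℝ => t • v) '' Ici 0) := fun v hv =>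
    (isClosedEmbedding_smul_left hv).isClosedMap _ isClosed_Ici
  have sub : ∀ v : E, U \ (fun t : ℝ => t • v) '' Ici 0 ⊆ U \ {0} := fun v =>
    sdiff_subset_sdiff_right (singleton_subset_iff.2 ⟨0, self_mem_Ici, zero_smul _ _⟩)
  have half : ∀ v : E, v ≠ 0 → -v ∈ U → HasLog g (U \ (fun t : ℝ => t • v) '' Ici 0) :=
    fun v hv hm => hasLog_of_starConvex (starConvex_diff_ray hc hv hm) (hU.sdiff (cl v hv))
      (hg.mono (sub v)) fun x hx => hz x (sub v hx)
  have hL : 1 < Module.rank ℝ (E ⧸ Submodule.span ℝ {e}) := by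
    have h1 := Submodule.rank_quotient_add_rank (Submodule.span ℝ ({e} : Set E))
    have h2 : Module.rank ℝ (Submodule.span ℝ ({e} : Set E)) ≤ 1 := by
      simpa using rank_span_le (R := ℝ) ({e} : Set E)
    by_contra! h3
    exact absurd hE (not_lt.2 (h1 ▸ (add_le_add h3 h2).trans_eq one_add_one_eq_two))
  have e1 : (U \ (fun t : ℝ => t • e) '' Ici 0) ∩ (U \ (fun t : ℝ => t • -e) '' Ici 0) =
      U \ Submodule.span ℝ {e} := by
    rw [sdiff_inter_sdiff]
    congr 1
    ext x
    rw [SetLike.mem_coe, Submodule.mem_span_singleton]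
    constructor
    · rintro (⟨t, -, rfl⟩ | ⟨t, -, rfl⟩)
      exacts [⟨t, rfl⟩, ⟨-t, by simp⟩]
    · rintro ⟨t, rfl⟩
      rcases le_total 0 t with h | h
      exacts [Or.inl ⟨t, h, rfl⟩, Or.inr ⟨-t, neg_nonneg.2 h, by simp⟩]
  refine (HasLog.union (hU.sdiff (cl e he)) (hU.sdiff (cl (-e) (neg_ne_zero.2 he)))
    (e1 ▸ isPreconnected_diff_submodule hc hU h0 _ hL) (half e he he2)
    (half (-e) (neg_ne_zero.2 he) (by rwa [neg_neg]))).mono fun x hx => ?_
  by_contra hn
  rw [mem_union, not_or, Set.mem_sdiff, Set.mem_sdiff, not_and_not_right, not_and_not_right] at hn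
  obtain ⟨s, hs, e2⟩ := hn.1 hx.1
  obtain ⟨t, ht, e3⟩ := hn.2 hx.1
  have h4 : (s + t) • e = 0 := by
    rw [add_smul, show s • e = x from e2, ← show t • -e = x from e3]; simp
  have h5 : s + t = 0 := (smul_eq_zero.1 h4).resolve_right he
  have h6 : s = 0 := by have : 0 ≤ s := hs; have : 0 ≤ t := ht; linarith
  exact hx.2 (by rw [← show s • e = x from e2, h6, zero_smul]; rfl)

/-- On an open convex set minus a point, in dimension at least three, every nowhere vanishing
function has a logarithm. -/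
theorem hasLog_punctured (hE : 2 < Module.rank ℝ E) (hc : Convex ℝ U) (hU : IsOpen U) (c : E)
    (hg : ContinuousOn g (U \ {c})) (hz : ∀ x ∈ U \ {c}, g x ≠ 0) : HasLog g (U \ {c}) := by
  by_cases h : c ∈ U
  · have hm : MapsTo (fun x => c + x) ((fun x => c + x) ⁻¹' U \ {0}) (U \ {c}) :=
      fun x hx => ⟨hx.1, fun e => hx.2 (add_eq_left.1 e)⟩
    have := hasLog_punctured_zero (g := fun x => g (c + x)) hE (hc.translate_preimage_right c)
      (hU.preimage (by fun_prop)) (by simpa using h) (hg.comp (by fun_prop) hm)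
      fun x hx => hz _ (hm hx)
    exact (this.comp (φ := fun x => x - c) (W := U \ {c}) (by fun_prop) fun x hx =>
      ⟨by simpa using hx.1, fun e => hx.2 (sub_eq_zero.1 e)⟩).congr fun x _ => by simp
  · rw [sdiff_singleton_eq_self h] at hg hz ⊢
    exact hasLog_of_convex hc hU hg hz

end Convex

end Pool.Agent.Lib.MP_1c0d65_gt.Top
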