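import Pool.Agent.Lib.MP_1c0d65_gt.Top.Log
import Pool.Agent.Lib.MP_21f752_an.PInt

/-! Primitives of closed one-forms and two-forms. -/

set_option autoImplicit false

namespace Pool.Agent.Lib.MP_1c0d65_gt.Top

open Set Filter Topology Metric
open scoped ContDiff

section One

variable {E F : Type*} [NormedAddCommGroup E] [NormedSpace ℝ E] [NormedAddCommGroup F]
  [NormedSpace ℝ F] {U V : Set E} {β : E → E →L[ℝ] F}

/-- The one-form `β` has a primitive on `U`. -/
def HasPrim (β : E → E →L[ℝ] F) (U : Set E) : Prop := ∃ φ : E → F, ∀ x ∈ U, HasFDerivAt φ (β x) x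

theorem HasPrim.mono (h : HasPrim β U) (hV : V ⊆ U) : HasPrim β V :=
  h.imp fun _ hf x hx => hf x (hV hx)

/-- Two primitives on a connected open set that agree at a point agree. -/
theorem eqOn_of_prim (hU : IsOpen U) (hc : IsPreconnected U) {φ ψ : E → F}
    (hφ : ∀ x ∈ U, HasFDerivAt φ (β x) x) (hψ : ∀ x ∈ U, HasFDerivAt ψ (β x) x) {a : E}
    (ha : a ∈ U) (e : φ a = ψ a) : EqOn φ ψ U :=
  hU.eqOn_of_fderiv_eq (𝕜 := ℝ) hc (fun x hx => (hφ x hx).differentiableAt.differentiableWithinAt)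
    (fun x hx => (hψ x hx).differentiableAt.differentiableWithinAt)
    (fun x hx => (hφ x hx).fderiv.trans (hψ x hx).fderiv.symm) ha e

theorem contDiffOn_of_prim {n : ℕ∞} (hU : IsOpen U) {φ : E → F}
    (hφ : ∀ x ∈ U, HasFDerivAt φ (β x) x) (hβ : ContDiffOn ℝ n β U) : ContDiffOn ℝ n φ U :=
  ((contDiffOn_succ_iff_fderiv_of_isOpen hU).2
    ⟨fun x hx => (hφ x hx).differentiableAt.differentiableWithinAt, by simp,
      hβ.congr fun x hx => (hφ x hx).fderiv⟩).of_le le_self_add

theorem HasPrim.union (hU : IsOpen U) (hV : IsOpen V) (hc : IsPreconnected (U ∩ V))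
    (h : HasPrim β U) (h' : HasPrim β V) : HasPrim β (U ∪ V) := by
  classical
  obtain ⟨φ, hφ⟩ := h
  obtain ⟨ψ, hψ⟩ := h'
  obtain ⟨k, hk⟩ : ∃ k, EqOn φ (fun x => ψ x + k) (U ∩ V) := by
    rcases (U ∩ V).eq_empty_or_nonempty with e | ⟨a, ha⟩
    · exact ⟨0, e ▸ eqOn_empty _ _⟩
    · exact ⟨φ a - ψ a, eqOn_of_prim (hU.inter hV) hc (fun x hx => hφ x hx.1)
        (fun x hx => (hψ x hx.2).add_const _) ha (by simp)⟩
  refine ⟨fun x => if x ∈ U then φ x else ψ x + k, fun x hx => ?_⟩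
  rcases hx with hx | hx
  · refine (hφ x hx).congr_of_eventuallyEq ?_
    filter_upwards [hU.mem_nhds hx] with y hy using if_pos hy
  · refine ((hψ x hx).add_const k).congr_of_eventuallyEq ?_
    filter_upwards [hV.mem_nhds hx] with y hy
    split_ifs with h
    exacts [hk ⟨h, hy⟩, rfl]

variable [CompleteSpace F]

theorem hasPrim_of_starConvex {c : E} (hs : StarConvex ℝ c U) (hU : IsOpen U)
    (hβ : DifferentiableOn ℝ β U) (cl : ∀ x ∈ U, ∀ v w, fderiv ℝ β x v w = fderiv ℝ β x w v) :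
    HasPrim β U := by
  have : ∀ x : U, ∃ (T : Set E) (φ : E → F), IsOpen T ∧ Convex ℝ T ∧ c ∈ T ∧ x.1 ∈ T ∧ T ⊆ U ∧
      φ c = 0 ∧ (∀ y ∈ T, segment ℝ c y ⊆ T) ∧ ∀ y ∈ T, HasFDerivAt φ (β y) y := by
    intro x
    have hK : IsCompact (segment ℝ c x.1) := by
      rw [segment_eq_image]; exact isCompact_Icc.image (by fun_prop)
    obtain ⟨δ, hδ, h⟩ := hK.exists_thickening_subset_open hU (hs.segment_subset x.2)
    have hc := (convex_segment c x.1).thickening δ
    obtain ⟨φ, hφ⟩ := hc.exists_forall_hasFDerivAt_of_fderiv_symmetric isOpen_thickening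
      (hβ.mono h) fun a ha => cl a (h ha)
    have h1 := self_subset_thickening hδ _ (left_mem_segment ℝ c x.1)
    exact ⟨_, fun y => φ y - φ c, isOpen_thickening, hc, h1,
      self_subset_thickening hδ _ (right_mem_segment ℝ c x.1), h, sub_self _,
      fun y hy => hc.segment_subset h1 hy, fun y hy => (hφ y hy).sub_const _⟩
  choose T φ h1 h2 h3 h4 h5 h6 h7 h8 using this
  classical
  refine ⟨fun y => if h : y ∈ U then φ ⟨y, h⟩ y else 0, fun x hx => ?_⟩
  refine (h8 ⟨x, hx⟩ x (h4 _)).congr_of_eventuallyEq ?_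
  filter_upwards [(h1 ⟨x, hx⟩).mem_nhds (h4 _)] with y hy
  rw [dif_pos (h5 _ hy)]
  exact eqOn_of_prim ((h1 _).inter (h1 _)) ((h2 _).inter (h2 _)).isPreconnected
    (fun z hz => h8 _ z hz.1) (fun z hz => h8 _ z hz.2) ⟨h3 _, h3 _⟩ ((h6 _).trans (h6 _).symm)
    ⟨h4 ⟨y, h5 _ hy⟩, hy⟩

/-- A punctured convex open set is the union of two star-convex open sets with connected
intersection, in dimension at least three. -/
theorem exists_split (hE : 2 < Module.rank ℝ E) (hc : Convex ℝ U) (hU : IsOpen U)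
    (h0 : (0 : E) ∈ U) : ∃ (A B : Set E) (a b : E), IsOpen A ∧ IsOpen B ∧ StarConvex ℝ a A ∧
      StarConvex ℝ b B ∧ IsPreconnected (A ∩ B) ∧ A ∪ B = U \ {0} := by
  have : Nontrivial E := rank_pos_iff_nontrivial.1 (two_pos.trans hE)
  obtain ⟨e, he, he1, he2⟩ : ∃ e : E, e ≠ 0 ∧ e ∈ U ∧ -e ∈ U := by
    obtain ⟨r, hr, hrU⟩ := Metric.isOpen_iff.1 hU 0 h0
    obtain ⟨e, he⟩ := exists_norm_eq E (half_pos hr).le
    exact ⟨e, norm_pos_iff.1 (he ▸ half_pos hr), hrU (by simp [he, hr]), hrU (by simp [he, hr])⟩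
  have cl : ∀ v : E, v ≠ 0 → IsClosed ((fun t : ℝ => t • v) '' Ici 0) := fun v hv =>
    (isClosedEmbedding_smul_left hv).isClosedMap _ isClosed_Ici
  have sub : ∀ v : E, U \ (fun t : ℝ => t • v) '' Ici 0 ⊆ U \ {0} := fun v =>
    sdiff_subset_sdiff_right (singleton_subset_iff.2 ⟨0, self_mem_Ici, zero_smul _ _⟩)
  have hL : 1 < Module.rank ℝ (E ⧸ Submodule.span ℝ {e}) := by
    have h1 := Submodule.rank_quotient_add_rank (Submodule.span ℝ ({e} : Set E))
    have h2 : Module.rank ℝ (Submodule.span ℝ ({e} : Set E)) ≤ 1 := by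
      simpa using rank_span_le (R := ℝ) ({e} : Set E)
    by_contra! h3
    exact absurd hE (not_lt.2 (h1 ▸ (add_le_add h3 h2).trans_eq one_add_one_eq_two))
  have e1 : (U \ (fun t : ℝ => t • e) '' Ici 0) ∩ (U \ (fun t : ℝ => t • -e) '' Ici 0) =
      U \ Submodule.span ℝ {e} := by
    rw [sdiff_inter_sdiff]
    congr 1
    ext x
    rw [SetLike.mem_coe, Submodule.mem_span_singleton]
    constructor
    · rintro (⟨t, -, rfl⟩ | ⟨t, -, rfl⟩)
      exacts [⟨t, rfl⟩, ⟨-t, by simp⟩]
    · rintro ⟨t, rfl⟩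
      rcases le_total 0 t with h | h
      exacts [Or.inl ⟨t, h, rfl⟩, Or.inr ⟨-t, neg_nonneg.2 h, by simp⟩]
  refine ⟨_, _, _, _, hU.sdiff (cl e he), hU.sdiff (cl (-e) (neg_ne_zero.2 he)),
    starConvex_diff_ray hc he he2, starConvex_diff_ray hc (neg_ne_zero.2 he) (by rwa [neg_neg]),
    e1 ▸ isPreconnected_diff_submodule hc hU h0 _ hL,
    (union_subset (sub _) (sub _)).antisymm fun x hx => ?_⟩
  by_contra hn
  rw [mem_union, not_or, Set.mem_sdiff, Set.mem_sdiff, not_and_not_right, not_and_not_right] at hn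
  obtain ⟨s, hs, e2⟩ := hn.1 hx.1
  obtain ⟨t, ht, e3⟩ := hn.2 hx.1
  have h4 : (s + t) • e = 0 := by
    rw [add_smul, show s • e = x from e2, ← show t • -e = x from e3]; simp
  have h5 : s + t = 0 := (smul_eq_zero.1 h4).resolve_right he
  have h6 : s = 0 := by have : 0 ≤ s := hs; have : 0 ≤ t := ht; linarith
  exact hx.2 (by rw [← show s • e = x from e2, h6, zero_smul]; rfl)

/-- A closed one-form on a punctured convex neighbourhood of the origin is exact, in dimension at
least three. -/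
theorem hasPrim_punctured (hE : 2 < Module.rank ℝ E) (hc : Convex ℝ U) (hU : IsOpen U)
    (h0 : (0 : E) ∈ U) (hβ : DifferentiableOn ℝ β (U \ {0}))
    (cl : ∀ x ∈ U \ {0}, ∀ v w, fderiv ℝ β x v w = fderiv ℝ β x w v) : HasPrim β (U \ {0}) := by
  obtain ⟨A, B, a, b, hA, hB, sa, sb, hi, e⟩ := exists_split hE hc hU h0
  rw [← e] at hβ cl ⊢
  exact (hasPrim_of_starConvex sa hA (hβ.mono subset_union_left) fun x hx =>
    cl x (Or.inl hx)).union hA hB hi
      (hasPrim_of_starConvex sb hB (hβ.mono subset_union_right) fun x hx => cl x (Or.inr hx))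

end One

section Two

open MP_21f752_an

variable {E F : Type} [NormedAddCommGroup E] [NormedSpace ℝ E] [FiniteDimensional ℝ E]
  [NormedAddCommGroup F] [NormedSpace ℝ F] [CompleteSpace F] {U : Set E}

/-- The Poincare lemma for two-forms on a star-convex open set. -/
theorem exists_prim2 (hU : IsOpen U) {c : E} (hs : StarConvex ℝ c U)
    {α : E → E →L[ℝ] E →L[ℝ] F} (hα : ContDiffOn ℝ ∞ α U) (alt : ∀ y ∈ U, ∀ v, α y v v = 0)
    (cl : ∀ y ∈ U, ∀ u v w,
      fderiv ℝ α y u v w + fderiv ℝ α y v w u + fderiv ℝ α y w u v = 0) :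
    ∃ a : E → E →L[ℝ] F, ContDiffOn ℝ ∞ a U ∧
      ∀ y ∈ U, fderiv ℝ a y - (fderiv ℝ a y).flip = α y := by
  have anti : ∀ y ∈ U, ∀ v w, α y v w = -α y w v := fun y hy v w => by
    have := alt y hy (v + w)
    simp only [map_add, add_apply, alt y hy, zero_add, add_zero] at this
    exact eq_neg_of_add_eq_zero_right this
  have hd : ∀ y ∈ U, HasFDerivAt α (fderiv ℝ α y) y := fun y hy =>
    ((hα.contDiffAt (hU.mem_nhds hy)).differentiableAt (by simp)).hasFDerivAt
  have anti' : ∀ y ∈ U, ∀ u v w, fderiv ℝ α y u v w = -fderiv ℝ α y u w v := by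
    intro y hy u v w
    have h := fun v w =>
      ((hd y hy).clm_apply (hasFDerivAt_const v y)).clm_apply (hasFDerivAt_const w y)
    have := (h v w).unique ((h w v).neg.congr_of_eventuallyEq (by
      filter_upwards [hU.mem_nhds hy] with x hx using anti x hx v w))
    simpa using congrArg (fun L => L u) this
  let G : E × ℝ → E →L[ℝ] F := fun p => p.2 • α (c + p.2 • (p.1 - c)) (p.1 - c)
  have mem : ∀ y ∈ U, ∀ t ∈ uIcc (0 : ℝ) 1, c + t • (y - c) ∈ U := fun y hy t ht => by
    rw [uIcc_of_le zero_le_one] at ht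
    exact hs.add_smul_sub_mem hy ht.1 ht.2
  have hG : ∀ y ∈ U, ∀ t ∈ uIcc (0 : ℝ) 1, ContDiffAt ℝ ∞ G (y, t) := fun y hy t ht =>
    contDiffAt_snd.smul (((hα.contDiffAt (hU.mem_nhds (mem y hy t ht))).comp (y, t)
      (f := fun p : E × ℝ => c + p.2 • (p.1 - c)) (by fun_prop)).clm_apply (by fun_prop))
  refine ⟨fun y => ∫ t in (0 : ℝ)..1, G (y, t), fun y hy => (contDiffAt_infty.2 fun n =>
    contDiffAt_int fun t ht => (hG y hy t ht).of_le (by exact_mod_cast le_top)
      ).contDiffWithinAt, fun y hy => ?_⟩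
  have h1 := (Calc.hasF fun t ht => (hG y hy t ht).of_le (by simp)).fderiv
  have hpd : ∀ t ∈ uIcc (0 : ℝ) 1, ∀ v w, Calc.pd G (y, t) v w =
      t • (t • fderiv ℝ α (c + t • (y - c)) v (y - c) w + α (c + t • (y - c)) v w) := by
    intro t ht v w
    have a1 : HasFDerivAt (fun x => G (x, t)) (Calc.pd G (y, t)) y :=
      HasFDerivAt.comp (g := G) (f := fun x : E => (x, t)) y
        ((hG y hy t ht).differentiableAt (by simp)).hasFDerivAt (hasFDerivAt_prodMk_left y t)
    have a2 : HasFDerivAt (fun x : E => c + t • (x - c)) (t • ContinuousLinearMap.id ℝ E) y :=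
      (((hasFDerivAt_id y).sub_const c).const_smul t).const_add c
    have a3 := ((HasFDerivAt.comp (g := α) y (hd _ (mem y hy t ht)) a2).clm_apply
      ((hasFDerivAt_id y).sub_const c)).const_smul t
    rw [a1.unique a3]
    simp [add_comm]
  have hc : ContinuousOn (fun t => Calc.pd G (y, t)) (uIcc 0 1) := fun t ht =>
    (((Calc.pd_cd (n := 0) ((hG y hy t ht).of_le (by simp))).continuousAt).comp
      (f := fun t : ℝ => (y, t)) (by fun_prop)).continuousWithinAt
  have hi : ∀ v w, IntervalIntegrable (fun t => Calc.pd G (y, t) v w) MeasureTheory.volume 0 1 :=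
    fun v w => ((hc.clm_apply continuousOn_const).clm_apply continuousOn_const).intervalIntegrable
  have h2 : ∀ v w, (∫ t in (0 : ℝ)..1, Calc.pd G (y, t)) v w =
      ∫ t in (0 : ℝ)..1, Calc.pd G (y, t) v w := fun v w => by
    rw [ContinuousLinearMap.intervalIntegral_apply hc.intervalIntegrable,
      ContinuousLinearMap.intervalIntegral_apply
        (hc.clm_apply continuousOn_const).intervalIntegrable]
  ext v w
  rw [h1, sub_apply, sub_apply, ContinuousLinearMap.flip_apply, h2, h2,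
    ← intervalIntegral.integral_sub (hi v w) (hi w v),
    intervalIntegral.integral_eq_sub_of_hasDerivAt
      (f := fun t : ℝ => t ^ 2 • α (c + t • (y - c)) v w) ?_ ((hi v w).sub (hi w v))]
  · simp
  · intro t ht
    have a1 : HasDerivAt (fun t : ℝ => c + t • (y - c)) (y - c) t := by
      simpa using ((hasDerivAt_id t).smul_const (y - c)).const_add c
    have a2 := ((HasFDerivAt.comp_hasDerivAt (l := α) t (hd _ (mem y hy t ht)) a1).clm_apply
      (hasDerivAt_const t v)).clm_apply (hasDerivAt_const t w)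
    refine ((hasDerivAt_pow 2 t).smul a2).congr_deriv ?_
    have b1 := cl _ (mem y hy t ht) v (y - c) w
    rw [anti' _ (mem y hy t ht) w v (y - c), anti' _ (mem y hy t ht) (y - c) w v] at b1
    rw [hpd t ht, hpd t ht, anti _ (mem y hy t ht) w v]
    simp only [Function.comp, map_zero, add_zero]
    linear_combination (norm := module) (-t ^ 2) • b1

end Two

end Pool.Agent.Lib.MP_1c0d65_gt.Top
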